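import Mathlib

/-!
# Vertices covered by `s` of `r` colours just above `s = √r`

We prove that for an absolute constant `C`, for all `√r ≤ s ≤ r/65` and `n` large,
`g(n,r,s) ≤ (1 - e^{-C s²/r}) n`.  This contains the range `√r ≪ s ≪ √(r log r)` of the question.

Construction: take an affine plane of order `q`, with `r ≈ 2 a q²` colours split into blocks of
`a ≈ 512 s²/r` colours, one block per line.  A vertex type is a point `P` of the plane together
with a majority subset (size `a/2+1`) of the block of every line through `P`.  Two types always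
share a colour: the two points lie on a common line, and two majority subsets of its block meet.
Colour every edge by such a common colour.  A set of `s` colours misses a `8^{-O(s/q)}` fraction
of the types, and `s/q = O(s²/r)`.
-/

set_option autoImplicit false

namespace Pool.Agent.Results.MP_a018d0_co.JustAboveSqrt

open Finset

/-- Points of the affine plane. -/
abbrev Pt (q : ℕ) := ZMod q × ZMod q
/-- Lines of the affine plane: `(none, b)` is `x = b`, `(some m, b)` is `y = m x + b`. -/
abbrev Ln (q : ℕ) := Option (ZMod q) × ZMod q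
/-- Majority subsets. -/
abbrev Maj (a : ℕ) := {A : Finset (Fin a) // A.card = a / 2 + 1}
/-- Vertex types. -/
abbrev Ty (q a : ℕ) := Pt q × (Ln q → Maj a)

/-- Incidence. -/
def On {q : ℕ} (P : Pt q) (l : Ln q) : Prop :=
  match l.1 with
  | none => P.1 = l.2
  | some m => P.2 = m * P.1 + l.2

/-- The type `x` uses the colour `k`. -/
def Uses {q a : ℕ} (x : Ty q a) (k : Ln q × Fin a) : Prop :=
  On x.1 k.1 ∧ k.2 ∈ (x.2 k.1).1

lemma exists_line {q : ℕ} [Fact q.Prime] (P Q : Pt q) : ∃ l : Ln q, On P l ∧ On Q l := by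
  by_cases h : P.1 = Q.1
  · exact ⟨(none, P.1), rfl, h.symm⟩
  · have h' : P.1 - Q.1 ≠ 0 := sub_ne_zero.mpr h
    refine ⟨(some ((P.2 - Q.2) / (P.1 - Q.1)), P.2 - (P.2 - Q.2) / (P.1 - Q.1) * P.1), ?_, ?_⟩
    · simp only [On]; ring
    · simp only [On]
      field_simp
      ring

lemma common {q a : ℕ} [Fact q.Prime] (x y : Ty q a) : ∃ k, Uses x k ∧ Uses y k := by
  obtain ⟨l, h1, h2⟩ := exists_line x.1 y.1
  have hA := (x.2 l).2
  have hB := (y.2 l).2
  by_cases hd : Disjoint (x.2 l).1 (y.2 l).1
  · exfalso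
    have h3 := Finset.card_union_of_disjoint hd
    have h4 : ((x.2 l).1 ∪ (y.2 l).1).card ≤ a := by
      simpa using Finset.card_le_univ ((x.2 l).1 ∪ (y.2 l).1)
    omega
  · rw [Finset.not_disjoint_iff] at hd
    obtain ⟨c, hc1, hc2⟩ := hd
    exact ⟨(l, c), ⟨h1, hc1⟩, ⟨h2, hc2⟩⟩

lemma card_on_le {q : ℕ} [Fact q.Prime] [∀ (P : Pt q) (l : Ln q), Decidable (On P l)] (l : Ln q) :
    (univ.filter fun P : Pt q => On P l).card ≤ q := by
  classical
  have hq : (univ : Finset (ZMod q)).card = q := by
    rw [Finset.card_univ, ZMod.card]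
  rcases l with ⟨o, b⟩
  cases o with
  | none =>
    calc (univ.filter fun P : Pt q => On P (none, b)).card ≤ (univ : Finset (ZMod q)).card := by
          apply Finset.card_le_card_of_injOn (fun P => P.2) (fun _ _ => Finset.mem_univ _)
          intro P hP Q hQ hPQ
          have h1 : P.1 = b := (Finset.mem_filter.mp (Finset.mem_coe.mp hP)).2
          have h2 : Q.1 = b := (Finset.mem_filter.mp (Finset.mem_coe.mp hQ)).2
          exact Prod.ext (h1.trans h2.symm) hPQ
      _ = q := hq
  | some m =>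
    calc (univ.filter fun P : Pt q => On P (some m, b)).card ≤ (univ : Finset (ZMod q)).card := by
          apply Finset.card_le_card_of_injOn (fun P => P.1) (fun _ _ => Finset.mem_univ _)
          intro P hP Q hQ hPQ
          have h1 : P.2 = m * P.1 + b := (Finset.mem_filter.mp (Finset.mem_coe.mp hP)).2
          have h2 : Q.2 = m * Q.1 + b := (Finset.mem_filter.mp (Finset.mem_coe.mp hQ)).2
          have h3 : P.1 = Q.1 := hPQ
          refine Prod.ext h3 ?_
          rw [h1, h2, h3]
      _ = q := hq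

lemma choose_ratio (a : ℕ) : ∀ j : ℕ, 4 * j ≤ a →
    a.choose (a / 2 + 1) ≤ 8 ^ j * (a - j).choose (a / 2 + 1) := by
  intro j
  induction j with
  | zero => intro _; simp
  | succ j ih =>
    intro hj
    have h1 := ih (by omega)
    refine h1.trans ?_
    have h2 := Nat.choose_mul_succ_eq (a - (j + 1)) (a / 2 + 1)
    have e1 : a - (j + 1) + 1 = a - j := by omega
    rw [e1] at h2
    have h3 : (a - j) ≤ 8 * (a - j - (a / 2 + 1)) := by omega
    have h4 : 0 < a - j := by omega
    have h5 : (a - j).choose (a / 2 + 1) ≤ 8 * (a - (j + 1)).choose (a / 2 + 1) := by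
      by_contra hcon
      push Not at hcon
      have : 8 * ((a - (j + 1)).choose (a / 2 + 1) * (a - j)) < 8 * ((a - (j + 1)).choose (a / 2 + 1) * (a - j)) := by
        calc 8 * ((a - (j + 1)).choose (a / 2 + 1) * (a - j))
            = (8 * (a - (j + 1)).choose (a / 2 + 1)) * (a - j) := by ring
          _ < (a - j).choose (a / 2 + 1) * (a - j) := by
              exact Nat.mul_lt_mul_of_pos_right hcon h4
          _ ≤ (a - j).choose (a / 2 + 1) * (8 * (a - j - (a / 2 + 1))) := by
              exact Nat.mul_le_mul_left _ h3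
          _ = 8 * ((a - j).choose (a / 2 + 1) * (a - j - (a / 2 + 1))) := by ring
          _ = 8 * ((a - (j + 1)).choose (a / 2 + 1) * (a - j)) := by rw [h2]
      exact lt_irrefl _ this
    calc 8 ^ j * (a - j).choose (a / 2 + 1) ≤ 8 ^ j * (8 * (a - (j + 1)).choose (a / 2 + 1)) :=
          Nat.mul_le_mul_left _ h5
      _ = 8 ^ (j + 1) * (a - (j + 1)).choose (a / 2 + 1) := by ring

lemma avoid_count (a : ℕ) (J : Finset (Fin a)) (hJ : 4 * J.card ≤ a) :
    Fintype.card (Maj a) ≤ 8 ^ J.card * (univ.filter fun A : Maj a => Disjoint A.1 J).card := by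
  classical
  have h1 : Fintype.card (Maj a) = a.choose (a / 2 + 1) := by
    simp [Maj, Fintype.card_finset_len]
  have h2 : (univ.filter fun A : Maj a => Disjoint A.1 J).card = (a - J.card).choose (a / 2 + 1) := by
    have : (univ.filter fun A : Maj a => Disjoint A.1 J).card = (Finset.powersetCard (a / 2 + 1) Jᶜ).card := by
      apply Finset.card_bij (fun (A : Maj a) _ => A.1)
      · intro A hA
        rw [Finset.mem_filter] at hA
        rw [Finset.mem_powersetCard]
        exact ⟨Finset.subset_compl_iff_disjoint_right.mpr hA.2, A.2⟩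
      · intro A _ B _ h
        exact Subtype.ext h
      · intro B hB
        rw [Finset.mem_powersetCard] at hB
        refine ⟨⟨B, hB.2⟩, ?_, rfl⟩
        rw [Finset.mem_filter]
        exact ⟨Finset.mem_univ _, Finset.subset_compl_iff_disjoint_right.mp hB.1⟩
    rw [this, Finset.card_powersetCard, Finset.card_compl, Fintype.card_fin]
  rw [h1, h2]
  exact choose_ratio a J.card hJ

open Classical in
lemma count_avoid (q a s : ℕ) [Fact q.Prime] (hs : 1 ≤ s) (ha : 1 ≤ a) (h8 : 8 * s ≤ a * q)
    (S : Finset (Ln q × Fin a)) (hS : S.card ≤ s) :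
    Fintype.card (Ty q a) ≤
      4 * 8 ^ (4 * s / q) * (univ.filter fun x : Ty q a => ∀ k ∈ S, ¬ Uses x k).card := by
  have hq : 0 < q := (Fact.out : q.Prime).pos
  have hcardq : Fintype.card (ZMod q) = q := ZMod.card q
  have hPt : (univ : Finset (Pt q)).card = q * q := by
    rw [Finset.card_univ, Fintype.card_prod, hcardq]
  set W : Ln q → Finset (Fin a) := fun l => univ.filter fun c => (l, c) ∈ S with hW
  -- total weight
  have hWsum : ∑ l, (W l).card ≤ s := by
    have : ∑ l, (W l).card = S.card := by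
      have h := Finset.card_eq_sum_card_fiberwise (s := S) (t := (univ : Finset (Ln q))) (f := fun k => k.1)
        (fun _ _ => Finset.mem_univ _)
      rw [h]
      apply Finset.sum_congr rfl
      intro l _
      apply Finset.card_bij (fun c _ => (l, c))
      · intro c hc
        simp only [hW, Finset.mem_filter, Finset.mem_univ, true_and] at hc
        simp [hc]
      · intro c _ d _ h
        exact (Prod.mk.inj h).2
      · intro k hk
        rw [Finset.mem_filter] at hk
        refine ⟨k.2, ?_, ?_⟩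
        · simp only [hW, Finset.mem_filter, Finset.mem_univ, true_and]
          rw [← hk.2]; exact hk.1
        · rw [← hk.2]
    rw [this]; exact hS
  set Dead : Finset (Ln q) := univ.filter fun l => a < 4 * (W l).card with hDead
  have hDeadc : Dead.card * a ≤ 4 * s := by
    calc Dead.card * a = ∑ l ∈ Dead, a := by rw [Finset.sum_const, smul_eq_mul]
      _ ≤ ∑ l ∈ Dead, 4 * (W l).card := by
          apply Finset.sum_le_sum
          intro l hl
          rw [hDead, Finset.mem_filter] at hl
          exact hl.2.le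
      _ ≤ ∑ l, 4 * (W l).card := Finset.sum_le_sum_of_subset (Finset.subset_univ _)
      _ = 4 * ∑ l, (W l).card := by rw [Finset.mul_sum]
      _ ≤ 4 * s := Nat.mul_le_mul_left _ hWsum
  set DP : Finset (Pt q) := Dead.biUnion fun l => univ.filter fun P => On P l with hDP
  have hDPc : DP.card ≤ Dead.card * q := by
    calc DP.card ≤ ∑ l ∈ Dead, (univ.filter fun P : Pt q => On P l).card := Finset.card_biUnion_le
      _ ≤ ∑ l ∈ Dead, q := Finset.sum_le_sum fun l _ => card_on_le l
      _ = Dead.card * q := by rw [Finset.sum_const, smul_eq_mul]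
  have hDP2 : 2 * DP.card ≤ q * q := by
    have h1 : a * (2 * DP.card) ≤ a * (q * q) := by
      calc a * (2 * DP.card) ≤ a * (2 * (Dead.card * q)) := by gcongr
        _ = 2 * q * (Dead.card * a) := by ring
        _ ≤ 2 * q * (4 * s) := by gcongr
        _ = q * (8 * s) := by ring
        _ ≤ q * (a * q) := by gcongr
        _ = a * (q * q) := by ring
    exact Nat.le_of_mul_le_mul_left h1 ha
  set sg : Pt q → ℕ := fun P => ∑ l, if On P l then (W l).card else 0 with hsg
  have hsgsum : ∑ P, sg P ≤ q * s := by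
    calc ∑ P, sg P = ∑ l, ∑ P : Pt q, (if On P l then (W l).card else 0) := by
          rw [hsg]; exact Finset.sum_comm
      _ = ∑ l, (univ.filter fun P : Pt q => On P l).card * (W l).card := by
          apply Finset.sum_congr rfl
          intro l _
          rw [← Finset.sum_filter, Finset.sum_const, smul_eq_mul]
      _ ≤ ∑ l, q * (W l).card := by
          apply Finset.sum_le_sum
          intro l _
          exact Nat.mul_le_mul_right _ (card_on_le l)
      _ = q * ∑ l, (W l).card := by rw [Finset.mul_sum]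
      _ ≤ q * s := Nat.mul_le_mul_left _ hWsum
  set Heavy : Finset (Pt q) := univ.filter fun P => 4 * s < q * sg P with hHeavy
  have hHeavyc : 4 * Heavy.card ≤ q * q := by
    have h1 : s * (4 * Heavy.card) ≤ s * (q * q) := by
      calc s * (4 * Heavy.card) = ∑ P ∈ Heavy, 4 * s := by
            rw [Finset.sum_const, smul_eq_mul]; ring
        _ ≤ ∑ P ∈ Heavy, q * sg P := by
            apply Finset.sum_le_sum
            intro P hP
            rw [hHeavy, Finset.mem_filter] at hP
            exact hP.2.le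
        _ ≤ ∑ P, q * sg P := Finset.sum_le_sum_of_subset (Finset.subset_univ _)
        _ = q * ∑ P, sg P := by rw [Finset.mul_sum]
        _ ≤ q * (q * s) := Nat.mul_le_mul_left _ hsgsum
        _ = s * (q * q) := by ring
    exact Nat.le_of_mul_le_mul_left h1 hs
  set Good : Finset (Pt q) := univ \ (DP ∪ Heavy) with hGood
  have hGoodc : q * q ≤ 4 * Good.card := by
    have h1 : Good.card = q * q - (DP ∪ Heavy).card := by
      rw [hGood, Finset.card_sdiff_of_subset (Finset.subset_univ _), hPt]
    have h2 := Finset.card_union_le DP Heavy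
    omega
  set Fs : Pt q → Finset (Ln q → Maj a) := fun P =>
    Fintype.piFinset fun l => univ.filter fun A : Maj a => On P l → Disjoint A.1 (W l) with hFs
  have hcardTy : Fintype.card (Ty q a) = q * q * (∏ _l : Ln q, Fintype.card (Maj a)) := by
    rw [Fintype.card_prod, Fintype.card_prod, hcardq, Fintype.card_pi]
  have hFsc : ∀ P ∈ Good, (∏ _l : Ln q, Fintype.card (Maj a)) ≤ 8 ^ (4 * s / q) * (Fs P).card := by
    intro P hP
    rw [hGood, Finset.mem_sdiff, Finset.mem_union, not_or] at hP
    obtain ⟨_, hP1, hP2⟩ := hP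
    have hsgP : sg P ≤ 4 * s / q := by
      rw [Nat.le_div_iff_mul_le hq]
      by_contra hcon
      apply hP2
      rw [hHeavy, Finset.mem_filter]
      exact ⟨Finset.mem_univ _, by rw [mul_comm q]; omega⟩
    have h1 : ∀ l : Ln q, Fintype.card (Maj a) ≤ 8 ^ (if On P l then (W l).card else 0) *
        (univ.filter fun A : Maj a => On P l → Disjoint A.1 (W l)).card := by
      intro l
      by_cases hl : On P l
      · simp only [hl, if_true, true_imp_iff]
        apply avoid_count
        by_contra hcon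
        apply hP1
        rw [hDP, Finset.mem_biUnion]
        refine ⟨l, ?_, ?_⟩
        · rw [hDead, Finset.mem_filter]; exact ⟨Finset.mem_univ _, by omega⟩
        · rw [Finset.mem_filter]; exact ⟨Finset.mem_univ _, hl⟩
      · simp only [hl, if_false, false_imp_iff, pow_zero, one_mul]
        rw [Finset.filter_true, Finset.card_univ]
    calc (∏ _l : Ln q, Fintype.card (Maj a))
        ≤ ∏ l : Ln q, (8 ^ (if On P l then (W l).card else 0) *
          (univ.filter fun A : Maj a => On P l → Disjoint A.1 (W l)).card) :=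
          Finset.prod_le_prod' fun l _ => h1 l
      _ = 8 ^ (sg P) * (Fs P).card := by
          rw [Finset.prod_mul_distrib, Finset.prod_pow_eq_pow_sum, hFs, Fintype.card_piFinset]
      _ ≤ 8 ^ (4 * s / q) * (Fs P).card := by
          gcongr
          norm_num
  have hsub : ∑ P ∈ Good, (Fs P).card ≤ (univ.filter fun x : Ty q a => ∀ k ∈ S, ¬ Uses x k).card := by
    rw [← Finset.card_sigma]
    apply Finset.card_le_card_of_injOn (fun x => ((x.1, x.2) : Ty q a))
    · intro x hx
      rw [Finset.mem_coe, Finset.mem_sigma] at hx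
      have hx2 := hx.2
      rw [hFs, Fintype.mem_piFinset] at hx2
      rw [Finset.mem_coe, Finset.mem_filter]
      refine ⟨Finset.mem_univ _, ?_⟩
      rintro k hk ⟨hk1, hk2⟩
      have h3 := hx2 k.1
      rw [Finset.mem_filter] at h3
      have h4 := h3.2 hk1
      rw [Finset.disjoint_left] at h4
      apply h4 hk2
      simp only [hW, Finset.mem_filter, Finset.mem_univ, true_and]
      exact hk
    · rintro ⟨P, f⟩ _ ⟨Q, g⟩ _ h
      simp only [Prod.mk.injEq] at h
      obtain ⟨rfl, rfl⟩ := h
      rfl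
  rw [hcardTy]
  calc q * q * (∏ _l : Ln q, Fintype.card (Maj a))
      ≤ 4 * Good.card * (∏ _l : Ln q, Fintype.card (Maj a)) := by gcongr
    _ = 4 * ∑ P ∈ Good, (∏ _l : Ln q, Fintype.card (Maj a)) := by
        rw [Finset.sum_const, smul_eq_mul]; ring
    _ ≤ 4 * ∑ P ∈ Good, 8 ^ (4 * s / q) * (Fs P).card := by
        gcongr with P hP
        exact hFsc P hP
    _ = 4 * 8 ^ (4 * s / q) * ∑ P ∈ Good, (Fs P).card := by
        rw [← Finset.mul_sum]; ring
    _ ≤ 4 * 8 ^ (4 * s / q) * (univ.filter fun x : Ty q a => ∀ k ∈ S, ¬ Uses x k).card := by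
        gcongr


/-- The set of vertices covered by the colour set `S`: those which are an endpoint of at least one
edge whose colour lies in `S`. -/
def CoveredBy {n r : ℕ} (c : (⊤ : SimpleGraph (Fin n)).edgeSet → Fin r) (S : Finset (Fin r))
    (v : Fin n) : Prop :=
  ∃ e : (⊤ : SimpleGraph (Fin n)).edgeSet, v ∈ (e : Sym2 (Fin n)) ∧ c e ∈ S

/-- The number of vertices covered by the colour set `S`. -/
noncomputable def numCovered {n r : ℕ} (c : (⊤ : SimpleGraph (Fin n)).edgeSet → Fin r)
    (S : Finset (Fin r)) : ℕ :=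
  Nat.card {v : Fin n // CoveredBy c S v}

/-- `g n r s`: the largest `m` such that in every `r`-edge colouring of `K_n` some set of `s`
colours covers at least `m` vertices. -/
noncomputable def g (n r s : ℕ) : ℕ :=
  sSup {m : ℕ | ∀ c : (⊤ : SimpleGraph (Fin n)).edgeSet → Fin r,
    ∃ S : Finset (Fin r), S.card = s ∧ m ≤ numCovered c S}

open Classical in
lemma colouring_exists {X K : Type} [Fintype X] [Fintype K] [Nonempty X] (uses : X → K → Prop)
    (hc : ∀ x y, ∃ k, uses x k ∧ uses y k) (r s M : ℕ) (hK : Fintype.card K ≤ r)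
    (hav : ∀ S : Finset K, S.card ≤ s →
      Fintype.card X ≤ M * (univ.filter fun x => ∀ k ∈ S, ¬ uses x k).card)
    (n : ℕ) (hn : Fintype.card X ≤ n) :
    ∃ c : (⊤ : SimpleGraph (Fin n)).edgeSet → Fin r, ∀ S : Finset (Fin r), S.card = s →
      n + 2 * M * numCovered c S ≤ 2 * M * n := by
  set T := Fintype.card X with hT
  have hTpos : 0 < T := Fintype.card_pos
  let e : X ≃ Fin T := Fintype.equivFin X
  obtain ⟨iota⟩ : Nonempty (K ↪ Fin r) :=
    Function.Embedding.nonempty_of_card_le (by simpa using hK)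
  let ty : Fin n → X := fun v => e.symm ⟨v.1 % T, Nat.mod_lt _ hTpos⟩
  choose k hk1 hk2 using hc
  refine ⟨fun ed => iota (k (ty (Quot.out ed.1).1) (ty (Quot.out ed.1).2)), ?_⟩
  intro S hS
  set c : (⊤ : SimpleGraph (Fin n)).edgeSet → Fin r :=
    fun ed => iota (k (ty (Quot.out ed.1).1) (ty (Quot.out ed.1).2)) with hcdef
  set S' : Finset K := univ.filter fun x => iota x ∈ S with hS'
  have hS'c : S'.card ≤ s := by
    rw [← hS]
    apply Finset.card_le_card_of_injOn iota
    · intro x hx
      exact (Finset.mem_filter.mp (Finset.mem_coe.mp hx)).2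
    · exact iota.injective.injOn
  have hcov : ∀ v : Fin n, CoveredBy c S v → ∃ x ∈ S', uses (ty v) x := by
    rintro v ⟨ed, hv, hed⟩
    refine ⟨k (ty (Quot.out ed.1).1) (ty (Quot.out ed.1).2), ?_, ?_⟩
    · rw [hS', Finset.mem_filter]; exact ⟨Finset.mem_univ _, hed⟩
    · have h1 : (ed.1 : Sym2 (Fin n)) = s((Quot.out ed.1).1, (Quot.out ed.1).2) := by
        exact (Quot.out_eq ed.1).symm
      rw [h1, Sym2.mem_iff] at hv
      rcases hv with hv | hv
      · rw [hv]; exact hk1 _ _
      · rw [hv]; exact hk2 _ _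
  set A : Finset X := univ.filter fun x => ∀ k ∈ S', ¬ uses x k with hA
  have hAcard : T ≤ M * A.card := hav S' hS'c
  -- uncovered vertices
  set U : Finset (Fin n) := univ.filter fun v => ¬ CoveredBy c S v with hU
  have hUcard : A.card * (n / T) ≤ U.card := by
    have hlt : ∀ (x : X) (j : Fin (n / T)), j.1 * T + (e x).1 < n := by
      intro x j
      have h1 : (j.1 + 1) * T ≤ (n / T) * T := Nat.mul_le_mul_right _ j.2
      have h2 : (n / T) * T ≤ n := Nat.div_mul_le_self n T
      have h3 := (e x).2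
      calc j.1 * T + (e x).1 < j.1 * T + T := by omega
        _ = (j.1 + 1) * T := by ring
        _ ≤ n := h1.trans h2
    have h0 : A.card * (n / T) = (A ×ˢ (univ : Finset (Fin (n / T)))).card := by
      rw [Finset.card_product, Finset.card_univ, Fintype.card_fin]
    rw [h0]
    apply Finset.card_le_card_of_injOn
      (fun p : X × Fin (n / T) => (⟨p.2.1 * T + (e p.1).1, hlt p.1 p.2⟩ : Fin n))
    · intro p hp
      have hp1 : p.1 ∈ A := (Finset.mem_product.mp (Finset.mem_coe.mp hp)).1
      rw [hA, Finset.mem_filter] at hp1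
      rw [Finset.mem_coe, hU, Finset.mem_filter]
      refine ⟨Finset.mem_univ _, fun hcv => ?_⟩
      obtain ⟨x, hx, hux⟩ := hcov _ hcv
      have hty : ty (⟨p.2.1 * T + (e p.1).1, hlt p.1 p.2⟩ : Fin n) = p.1 := by
        simp only [ty]
        rw [Equiv.symm_apply_eq]
        apply Fin.ext
        simp only
        rw [mul_comm, Nat.mul_add_mod, Nat.mod_eq_of_lt (e p.1).2]
      rw [hty] at hux
      exact hp1.2 x hx hux
    · rintro ⟨x, j⟩ _ ⟨y, l⟩ _ h
      simp only [Fin.mk.injEq] at h
      have hx := (e x).2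
      have hy := (e y).2
      have hjl : j.1 = l.1 := by
        have h1 : (j.1 * T + (e x).1) / T = j.1 := by
          rw [mul_comm, Nat.mul_add_div hTpos, Nat.div_eq_of_lt hx, add_zero]
        have h2 : (l.1 * T + (e y).1) / T = l.1 := by
          rw [mul_comm, Nat.mul_add_div hTpos, Nat.div_eq_of_lt hy, add_zero]
        rw [← h1, ← h2, h]
      have hxy : (e x).1 = (e y).1 := by
        rw [hjl] at h; omega
      have hxy' : x = y := e.injective (Fin.ext hxy)
      rw [hxy', Fin.ext hjl]
  have hnum : numCovered c S + U.card = n := by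
    have h1 : numCovered c S = (univ.filter fun v => CoveredBy c S v).card := by
      rw [numCovered, Nat.card_eq_fintype_card, Fintype.card_subtype]
    rw [h1, hU, Finset.card_filter_add_card_filter_not, Finset.card_univ, Fintype.card_fin]
  have hn2 : n ≤ 2 * (T * (n / T)) := by
    have h1 := Nat.div_add_mod n T
    have h2 := Nat.mod_lt n hTpos
    have h3 : 1 ≤ n / T := (Nat.one_le_div_iff hTpos).mpr hn
    have h4 : T * 1 ≤ T * (n / T) := Nat.mul_le_mul_left _ h3
    omega
  have hfin : n ≤ 2 * M * U.card := by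
    calc n ≤ 2 * (T * (n / T)) := hn2
      _ ≤ 2 * (M * A.card * (n / T)) := by gcongr
      _ = 2 * M * (A.card * (n / T)) := by ring
      _ ≤ 2 * M * U.card := by gcongr
  calc n + 2 * M * numCovered c S ≤ 2 * M * U.card + 2 * M * numCovered c S := by omega
    _ = 2 * M * (numCovered c S + U.card) := by ring
    _ = 2 * M * n := by rw [hnum]

lemma mem_bound {n r s M m : ℕ} (hM : 0 < M)
    (h : ∃ c : (⊤ : SimpleGraph (Fin n)).edgeSet → Fin r, ∀ S : Finset (Fin r), S.card = s →
      n + 2 * M * numCovered c S ≤ 2 * M * n)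
    (hm : m ∈ {m : ℕ | ∀ c : (⊤ : SimpleGraph (Fin n)).edgeSet → Fin r,
      ∃ S : Finset (Fin r), S.card = s ∧ m ≤ numCovered c S}) :
    m ≤ (2 * M * n - n) / (2 * M) := by
  obtain ⟨c, hc⟩ := h
  obtain ⟨S, hS, hmS⟩ := hm c
  have h1 := hc S hS
  rw [Nat.le_div_iff_mul_le (by omega)]
  have h2 : m * (2 * M) ≤ 2 * M * numCovered c S := by
    rw [mul_comm]; gcongr
  omega

lemma g_bound {n r s M : ℕ} (hM : 0 < M)
    (h : ∃ c : (⊤ : SimpleGraph (Fin n)).edgeSet → Fin r, ∀ S : Finset (Fin r), S.card = s →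
      n + 2 * M * numCovered c S ≤ 2 * M * n) :
    (g n r s : ℝ) ≤ (1 - 1 / (2 * M : ℝ)) * n := by
  have h1 : g n r s ≤ (2 * M * n - n) / (2 * M) := csSup_le' fun m hm => mem_bound hM h hm
  rw [Nat.le_div_iff_mul_le (by omega)] at h1
  have h3 : n ≤ 2 * M * n := Nat.le_mul_of_pos_left n (by omega)
  have h2 : g n r s * (2 * M) + n ≤ 2 * M * n := by omega
  have h4 : (g n r s : ℝ) * (2 * M) + n ≤ 2 * M * n := by exact_mod_cast h2
  have hMr : (0 : ℝ) < 2 * M := by positivity
  have h5 : (1 - 1 / (2 * M : ℝ)) * n = (2 * M * n - n) / (2 * M) := by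
    field_simp
  rw [h5, le_div_iff₀ hMr]
  linarith

/-- The constant. -/
noncomputable def C0 : ℝ := 258 * Real.log 8

lemma C0_pos : 0 < C0 := by
  unfold C0
  have : 0 < Real.log 8 := Real.log_pos (by norm_num)
  positivity

theorem uniform (r s : ℕ) (hs : 1 ≤ s) (h1 : r ≤ s ^ 2) (h2 : 65 * s ≤ r) :
    ∀ᶠ n : ℕ in Filter.atTop,
      (g n r s : ℝ) ≤ (1 - Real.exp (-(C0 * (s : ℝ) ^ 2 / r))) * n := by
  have hr : 0 < r := by omega
  set a : ℕ := 512 * s ^ 2 / r + 1 with ha
  have ha1 : 512 * s ^ 2 < a * r := by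
    rw [ha]; exact Nat.lt_mul_of_div_lt (Nat.lt_succ_self _) hr
  have ha2 : a * r ≤ 513 * s ^ 2 := by
    have : 512 * s ^ 2 / r * r ≤ 512 * s ^ 2 := Nat.div_mul_le_self _ _
    rw [ha, add_mul, one_mul]; omega
  have ha8 : 8 * a ≤ r := by
    have h3 : 8 * a * r ≤ r * r := by
      calc 8 * a * r = 8 * (a * r) := by ring
        _ ≤ 8 * (513 * s ^ 2) := by gcongr
        _ ≤ (65 * s) * (65 * s) := by nlinarith
        _ ≤ r * r := by gcongr
    exact Nat.le_of_mul_le_mul_right h3 hr
  have hapos : 0 < a := Nat.succ_pos _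
  clear_value a
  set N : ℕ := Nat.sqrt (r / (2 * a)) with hN
  have hN1 : N * N * (2 * a) ≤ r := by
    rw [← Nat.le_div_iff_mul_le (by omega)]
    exact Nat.sqrt_le _
  have hN2 : r < (N + 1) * (N + 1) * (2 * a) := by
    rw [← Nat.div_lt_iff_lt_mul (by omega)]
    exact Nat.lt_succ_sqrt _
  have hN3 : 2 ≤ N := by
    rw [hN, Nat.le_sqrt, Nat.le_div_iff_mul_le (by omega)]
    omega
  obtain ⟨q, hq, hq1, hq2⟩ := Nat.exists_prime_lt_and_le_two_mul (N / 2) (by omega)
  have : Fact q.Prime := ⟨hq⟩
  have hqN : q ≤ N := by omega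
  have hqN2 : N + 1 ≤ 2 * q := by omega
  have hqr : q * q * (2 * a) ≤ r := le_trans (by gcongr) hN1
  have hqr2 : r < 8 * a * (q * q) := by
    calc r < (N + 1) * (N + 1) * (2 * a) := hN2
      _ ≤ (2 * q) * (2 * q) * (2 * a) := by gcongr
      _ = 8 * a * (q * q) := by ring
  have hK : Fintype.card (Ln q × Fin a) ≤ r := by
    rw [Fintype.card_prod, Fintype.card_prod, Fintype.card_option, ZMod.card, Fintype.card_fin]
    calc (q + 1) * q * a ≤ (2 * q) * q * a := by
          gcongr
          have := hq.two_le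
          omega
      _ = q * q * (2 * a) := by ring
      _ ≤ r := hqr
  have h8 : 8 * s ≤ a * q := by
    by_contra hcon
    push Not at hcon
    have h3 : (a * q) * (a * q) < (8 * s) * (8 * s) := Nat.mul_lt_mul'' hcon hcon
    have h4 : a * r < 8 * ((a * q) * (a * q)) := by
      calc a * r < a * (8 * a * (q * q)) := Nat.mul_lt_mul_of_pos_left hqr2 hapos
        _ = 8 * ((a * q) * (a * q)) := by ring
    nlinarith
  set D : ℕ := 4 * s / q with hD
  have hDr : (D : ℝ) ≤ 257 * ((s : ℝ) ^ 2 / r) := by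
    have hrR : (0 : ℝ) < r := by exact_mod_cast hr
    have hsR : (0 : ℝ) < s := by exact_mod_cast hs
    have hqR : (0 : ℝ) < q := by exact_mod_cast hq.pos
    have h3 : (D : ℝ) ≤ 4 * s / q := by
      have := @Nat.cast_div_le ℝ _ _ _ (4 * s) q
      rw [← hD] at this
      push_cast at this
      exact this
    refine h3.trans ?_
    rw [div_le_iff₀ hqR]
    have h4 : (16 : ℝ) * r ^ 2 ≤ (257 * s * q) ^ 2 := by
      have h5 : (r : ℝ) * r ≤ (8 * a * (q * q)) * r := by
        have : (r : ℝ) ≤ 8 * a * (q * q) := by exact_mod_cast hqr2.le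
        gcongr
      have h6 : (a : ℝ) * r ≤ 513 * s ^ 2 := by exact_mod_cast ha2
      have h7 : (8 * (a : ℝ) * (q * q)) * r ≤ 8 * (q * q) * (513 * s ^ 2) := by
        calc (8 * (a : ℝ) * (q * q)) * r = 8 * (q * q) * (a * r) := by ring
          _ ≤ 8 * (q * q) * (513 * s ^ 2) := by gcongr
      have h8' : (0 : ℝ) ≤ (q * q) * s ^ 2 := by positivity
      nlinarith
    have h9 : 4 * (r : ℝ) ≤ 257 * s * q := by
      apply le_of_sq_le_sq _ (by positivity)
      nlinarith
    have h10 : 257 * ((s : ℝ) ^ 2 / r) * q = (s * (257 * s * q)) / r := by ring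
    rw [h10, le_div_iff₀ hrR]
    nlinarith
  have hlow : Real.exp (-(C0 * (s : ℝ) ^ 2 / r)) ≤ 1 / (2 * ((4 * 8 ^ D : ℕ) : ℝ)) := by
    have hrR : (0 : ℝ) < r := by exact_mod_cast hr
    have hsr : (1 : ℝ) ≤ (s : ℝ) ^ 2 / r := by
      rw [le_div_iff₀ hrR, one_mul]; exact_mod_cast h1
    have hlog : (0 : ℝ) < Real.log 8 := Real.log_pos (by norm_num)
    have e1 : (2 * ((4 * 8 ^ D : ℕ) : ℝ)) = (8 : ℝ) ^ (D + 1) := by
      push_cast; ring
    have e2 : 1 / (8 : ℝ) ^ (D + 1) = Real.exp (-(((D : ℝ) + 1) * Real.log 8)) := by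
      rw [Real.exp_neg, ← one_div]
      congr 1
      have : (8 : ℝ) ^ (D + 1) = Real.exp (Real.log ((8 : ℝ) ^ (D + 1))) := by
        rw [Real.exp_log (by positivity)]
      rw [this, Real.log_pow]
      push_cast
      rfl
    rw [e1, e2]
    apply Real.exp_le_exp.mpr
    apply neg_le_neg
    have e3 : C0 * (s : ℝ) ^ 2 / r = 258 * ((s : ℝ) ^ 2 / r) * Real.log 8 := by
      unfold C0; ring
    rw [e3]
    apply mul_le_mul_of_nonneg_right _ hlog.le
    linarith
  rw [Filter.eventually_atTop]
  refine ⟨Fintype.card (Ty q a), fun n hn => ?_⟩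
  have hne : Nonempty (Ty q a) := by
    have : Nonempty (Maj a) := by
      have : (0 : ℕ) < Fintype.card (Maj a) := by
        have h3 : Fintype.card (Maj a) = a.choose (a / 2 + 1) := by
          simp [Maj, Fintype.card_finset_len]
        rw [h3]
        exact Nat.choose_pos (by omega)
      exact Fintype.card_pos_iff.mp this
    infer_instance
  have hav := count_avoid q a s hs hapos h8
  rw [← hD] at hav
  clear_value D
  have hcol := colouring_exists (Uses (q := q) (a := a)) (fun x y => common x y) r s (4 * 8 ^ D) hK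
    (fun S hS => by convert hav S hS) n hn
  have hg := g_bound (by positivity) hcol
  refine hg.trans ?_
  gcongr

open Filter Topology in
/-- **MP_a018d0, Q1 (proved).** There is an absolute constant `C > 0` such that for every function
`s = s(r)` with `s(r)/√r → ∞` and `s(r)/√(r log₂ r) → 0`, for all large `r` and all `n` large in
terms of `r`, `g(n,r,s) ≤ (1 - e^{-C s²/r}) n`; the same `C` works for all `r, s ≥ 1` with
`√r ≤ s ≤ r/65` and `n` large in terms of `r, s`. -/
theorem result :
    ∃ C : ℝ, 0 < C ∧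
      (∀ s : ℕ → ℕ,
        Tendsto (fun r : ℕ => (s r : ℝ) / √(r : ℝ)) atTop atTop →
        Tendsto (fun r : ℕ => (s r : ℝ) / √((r : ℝ) * Real.logb 2 r)) atTop (𝓝 0) →
        ∀ᶠ r : ℕ in atTop, ∀ᶠ n : ℕ in atTop,
          (g n r (s r) : ℝ) ≤ (1 - Real.exp (-(C * (s r : ℝ) ^ 2 / r))) * n) ∧
      (∀ r s : ℕ, 1 ≤ s → r ≤ s ^ 2 → 65 * s ≤ r → ∀ᶠ n : ℕ in atTop,
          (g n r s : ℝ) ≤ (1 - Real.exp (-(C * (s : ℝ) ^ 2 / r))) * n) := by
  refine ⟨C0, C0_pos, ?_, fun r s hs h1 h2 => uniform r s hs h1 h2⟩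
  intro s h1 h2
  have e1 : ∀ᶠ r : ℕ in atTop, (1 : ℝ) ≤ (s r : ℝ) / √(r : ℝ) := h1.eventually_ge_atTop 1
  have e2 : ∀ᶠ r : ℕ in atTop, (s r : ℝ) / √((r : ℝ) * Real.logb 2 r) < 1 / 65 :=
    h2.eventually_lt_const (by norm_num)
  filter_upwards [e1, e2, eventually_ge_atTop 2] with r hr1 hr2 hr3
  have hrR : (2 : ℝ) ≤ r := by exact_mod_cast hr3
  have hrpos : (0 : ℝ) < r := by linarith
  have hsq : (0 : ℝ) < √(r : ℝ) := Real.sqrt_pos.mpr hrpos
  rw [le_div_iff₀ hsq, one_mul] at hr1
  have hs1 : 1 ≤ s r := by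
    have : (0 : ℝ) < s r := lt_of_lt_of_le hsq hr1
    exact_mod_cast this
  have hs2 : r ≤ (s r) ^ 2 := by
    have : (r : ℝ) ≤ (s r : ℝ) ^ 2 := by
      calc (r : ℝ) = √(r : ℝ) ^ 2 := (Real.sq_sqrt hrpos.le).symm
        _ ≤ (s r : ℝ) ^ 2 := by gcongr
    exact_mod_cast this
  have hlogb : Real.logb 2 r ≤ r := by
    rw [Real.logb_le_iff_le_rpow (by norm_num) hrpos, Real.rpow_natCast]
    exact_mod_cast (Nat.lt_two_pow_self (n := r)).le
  have hlogpos : 0 < Real.logb 2 r := Real.logb_pos (by norm_num) (by linarith)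
  have hsq2 : 0 < √((r : ℝ) * Real.logb 2 r) := Real.sqrt_pos.mpr (by positivity)
  rw [div_lt_iff₀ hsq2] at hr2
  have hle : √((r : ℝ) * Real.logb 2 r) ≤ r := by
    calc √((r : ℝ) * Real.logb 2 r) ≤ √((r : ℝ) * r) := Real.sqrt_le_sqrt (by gcongr)
      _ = r := Real.sqrt_mul_self hrpos.le
  have hs3 : 65 * s r ≤ r := by
    have : (65 : ℝ) * s r ≤ r := by linarith
    exact_mod_cast this
  exact uniform r (s r) hs1 hs2 hs3

end Pool.Agent.Results.MP_a018d0_co.JustAboveSqrt
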